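import Mathlib

/-!
A Banach space with an SSS M-basis that has a real summability matrix has a triangular T-basis.
In particular every real Banach space with an SSS M-basis has a triangular T-basis.

The operators `A n = ∑ l n i • f i ⊗ x i` are uniformly bounded, so the entries `l n i` are bounded,
and `l n i → 1` for fixed `i`. Choose a sparse subsequence of rows such that each row is almost
constant `1` up to the length of the previous one, and permute the basis inside the successive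
blocks so that each chosen row is monotone on its last block. Then the rows have bounded variation.
-/

set_option autoImplicit false

namespace Pool.Agent.Results.MP_843e59_an.RealTBasis

open Filter Topology

/-- Sorting a function on an interval. -/
theorem exists_sort (len : ℕ) : ∀ (a : ℕ) (g : ℕ → ℝ), ∃ τ : Equiv.Perm ℕ,
    (∀ i, ¬ (a ≤ i ∧ i < a + len) → τ i = i) ∧
    (∀ i, a ≤ i → i < a + len → a ≤ τ i ∧ τ i < a + len) ∧
    (∀ i j, a ≤ i → i ≤ j → j < a + len → g (τ j) ≤ g (τ i)) := by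
  induction len with
  | zero =>
    intro a g
    exact ⟨1, fun i _ => rfl, fun i h1 h2 => by omega, fun i j h1 h2 h3 => by omega⟩
  | succ len ih =>
    intro a g
    obtain ⟨j, hj, hmax⟩ := Finset.exists_max_image (Finset.Ico a (a + (len + 1))) g
      ⟨a, Finset.mem_Ico.2 ⟨le_rfl, by omega⟩⟩
    rw [Finset.mem_Ico] at hj
    let s : Equiv.Perm ℕ := Equiv.swap a j
    obtain ⟨τ, h1, h2, h3⟩ := ih (a + 1) (g ∘ s)
    have hs : ∀ i, a ≤ i → i < a + (len + 1) → a ≤ s i ∧ s i < a + (len + 1) := by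
      intro i hi1 hi2
      by_cases e1 : i = a
      · rw [e1]; simp only [s, Equiv.swap_apply_left]; exact hj
      · by_cases e2 : i = j
        · rw [e2]; simp only [s, Equiv.swap_apply_right]; omega
        · simp only [s]; rw [Equiv.swap_apply_of_ne_of_ne e1 e2]; exact ⟨hi1, hi2⟩
    have hτ : ∀ i, a ≤ i → i < a + (len + 1) → a ≤ τ i ∧ τ i < a + (len + 1) := by
      intro i hi1 hi2
      by_cases e1 : i = a
      · rw [e1, h1 a (by omega)]; omega
      · have := h2 i (by omega) (by omega)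
        omega
    refine ⟨τ.trans s, ?_, ?_, ?_⟩
    · intro i hi
      rw [Equiv.trans_apply, h1 i (by omega)]
      have e1 : i ≠ a := by rintro rfl; omega
      have e2 : i ≠ j := by rintro rfl; omega
      exact Equiv.swap_apply_of_ne_of_ne e1 e2
    · intro i hi1 hi2
      rw [Equiv.trans_apply]
      exact hs _ (hτ i hi1 hi2).1 (hτ i hi1 hi2).2
    · intro i k hi hik hk
      rw [Equiv.trans_apply, Equiv.trans_apply]
      by_cases e1 : i = a
      · rw [e1, h1 a (by omega)]
        have e2 : s a = j := Equiv.swap_apply_left _ _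
        rw [e2]
        apply hmax
        rw [Finset.mem_Ico]
        have := hτ k (by omega) hk
        exact hs _ this.1 this.2
      · exact h3 i k (by omega) hik (by omega)

/-- Abstract variation bound: a row that is close to `1` before `a`, antitone on `[a, b]` and zero
after `b`. -/
theorem variation (lam : ℕ → ℝ) (a b : ℕ) (hab : a ≤ b) (C : ℝ) (hC : ∀ i, |lam i| ≤ C)
    (h1 : ∑ i ∈ Finset.range a, |lam i - 1| ≤ 1)
    (h2 : ∀ i j, a ≤ i → i ≤ j → j ≤ b → lam j ≤ lam i) (h3 : ∀ i, b < i → lam i = 0) :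
    ∀ n, ∑ m ∈ Finset.range n, |lam m - lam (m + 1)| ≤ 5 * C + 2 := by
  set g : ℕ → ℝ := fun m => |lam m - lam (m + 1)| with hg
  have hg0 : ∀ m, 0 ≤ g m := fun m => abs_nonneg _
  have hC0 : 0 ≤ C := (abs_nonneg _).trans (hC 0)
  have hg2 : ∀ m, g m ≤ 2 * C := by
    intro m
    have := abs_sub (lam m) (lam (m + 1))
    have := hC m
    have := hC (m + 1)
    simp only [g]; linarith
  have hg1 : ∀ m, g m ≤ |lam m - 1| + |lam (m + 1) - 1| := by
    intro m
    have : lam m - lam (m + 1) = (lam m - 1) - (lam (m + 1) - 1) := by ring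
    simp only [g]; rw [this]
    exact abs_sub _ _
  have c2 : ∑ m ∈ Finset.range a, g m ≤ 2 + 2 * C := by
    rcases a with _ | a
    · simp; positivity
    · rw [Finset.sum_range_succ]
      have e1 : ∑ m ∈ Finset.range a, g m ≤
          ∑ m ∈ Finset.range a, |lam m - 1| + ∑ m ∈ Finset.range a, |lam (m + 1) - 1| := by
        rw [← Finset.sum_add_distrib]
        exact Finset.sum_le_sum fun m _ => hg1 m
      have e2 : ∑ m ∈ Finset.range a, |lam m - 1| ≤ 1 := by
        rw [Finset.sum_range_succ] at h1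
        have := abs_nonneg (lam a - 1)
        linarith
      have e3 : ∑ m ∈ Finset.range a, |lam (m + 1) - 1| ≤ 1 := by
        rw [Finset.sum_range_succ'] at h1
        have := abs_nonneg (lam 0 - 1)
        linarith
      have := hg2 a
      linarith
  have c3 : ∀ k, a + k ≤ b → ∑ m ∈ Finset.range (a + k), g m =
      ∑ m ∈ Finset.range a, g m + (lam a - lam (a + k)) := by
    intro k
    induction k with
    | zero => intro _; simp
    | succ k ih =>
      intro hk
      have e : g (a + k) = lam (a + k) - lam (a + k + 1) := by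
        simp only [g]
        rw [abs_of_nonneg]
        have := h2 (a + k) (a + k + 1) (by omega) (by omega) (by omega)
        linarith
      rw [← add_assoc, Finset.sum_range_succ, ih (by omega), e]
      ring
  have c4 : ∑ m ∈ Finset.range (b + 1), g m ≤ 5 * C + 2 := by
    obtain ⟨k, rfl⟩ : ∃ k, b = a + k := ⟨b - a, by omega⟩
    rw [Finset.sum_range_succ, c3 k le_rfl]
    have e1 : g (a + k) ≤ C := by
      simp only [g]
      rw [h3 (a + k + 1) (by omega), sub_zero]
      exact hC _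
    have e2 := abs_le.1 (hC a)
    have e3 := abs_le.1 (hC (a + k))
    linarith
  intro n
  have c5 : ∀ k, ∑ m ∈ Finset.range (b + 1 + k), g m = ∑ m ∈ Finset.range (b + 1), g m := by
    intro k
    induction k with
    | zero => rfl
    | succ k ih =>
      rw [← add_assoc, Finset.sum_range_succ, ih]
      have : g (b + 1 + k) = 0 := by
        simp only [g]
        rw [h3 _ (by omega), h3 _ (by omega), sub_zero, abs_zero]
      rw [this, add_zero]
  calc ∑ m ∈ Finset.range n, g m ≤ ∑ m ∈ Finset.range (b + 1 + n), g m :=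
        Finset.sum_le_sum_of_subset_of_nonneg (Finset.range_mono (by omega)) fun m _ _ => hg0 m
    _ = ∑ m ∈ Finset.range (b + 1), g m := c5 n
    _ ≤ _ := c4

/-- Abel summation. -/
theorem abel {𝕜 E : Type*} [RCLike 𝕜] [NormedAddCommGroup E] [NormedSpace 𝕜 E] (lam : ℕ → 𝕜)
    (v : ℕ → E) (n : ℕ) :
    ∑ m ∈ Finset.range n, (lam m - lam (m + 1)) • ∑ i ∈ Finset.range (m + 1), v i =
      ∑ i ∈ Finset.range n, lam i • v i - lam n • ∑ i ∈ Finset.range n, v i := by
  induction n with
  | zero => simp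
  | succ n ih =>
    rw [Finset.sum_range_succ, ih, Finset.sum_range_succ (fun i => lam i • v i),
      Finset.sum_range_succ v, sub_smul, smul_add, smul_add]
    abel

theorem main (𝕜 : Type) [RCLike 𝕜] (E : Type) [NormedAddCommGroup E] [NormedSpace 𝕜 E]
    [CompleteSpace E] (x : ℕ → E) (f : ℕ → E →L[𝕜] 𝕜)
    (hb : ∀ i j : ℕ, f i (x j) = if i = j then (1 : 𝕜) else 0) (l : ℕ → ℕ → ℝ)
    (hl : ∀ y : E, Tendsto (fun n : ℕ => ∑ i ∈ Finset.range (n + 1),
      (l n i : 𝕜) • f i y • x i) atTop (𝓝 y)) :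
    ∃ (x : ℕ → E) (f : ℕ → E →L[𝕜] 𝕜) (t : ℕ → ℕ → 𝕜),
      (∀ i j : ℕ, f i (x j) = if i = j then (1 : 𝕜) else 0) ∧
      (∀ n m : ℕ, n < m → t n m = 0) ∧
      (∃ C : ℝ, ∀ n : ℕ, ∑ m ∈ Finset.range (n + 1), ‖t n m‖ ≤ C) ∧
      (∀ m : ℕ, Tendsto (fun n : ℕ => t n m) atTop (𝓝 0)) ∧
      Tendsto (fun n : ℕ => ∑ m ∈ Finset.range (n + 1), t n m) atTop (𝓝 1) ∧
      ∀ y : E, Tendsto (fun n : ℕ => ∑ m ∈ Finset.range (n + 1),
          t n m • ∑ i ∈ Finset.range (m + 1), f i y • x i) atTop (𝓝 y) := by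
  -- the operators
  let A : ℕ → E →L[𝕜] E := fun n => ∑ i ∈ Finset.range (n + 1), (l n i : 𝕜) • (f i).smulRight (x i)
  have hA : ∀ n y, A n y = ∑ i ∈ Finset.range (n + 1), (l n i : 𝕜) • f i y • x i := by
    intro n y
    simp [A]
  have hAl : ∀ y, Tendsto (fun n => A n y) atTop (𝓝 y) := by
    intro y
    simpa only [hA] using hl y
  obtain ⟨C, hC⟩ := banach_steinhaus (g := A) (fun y => by
    obtain ⟨M, hM⟩ := (hAl y).norm.bddAbove_range
    exact ⟨M, fun n => hM ⟨n, rfl⟩⟩)
  have hx0 : ∀ i, 0 < ‖x i‖ := by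
    intro i
    rw [norm_pos_iff]
    intro h
    have := hb i i
    rw [h] at this
    simp at this
  have hAx : ∀ n i, i ≤ n → A n (x i) = (l n i : 𝕜) • x i := by
    intro n i hi
    rw [hA, Finset.sum_eq_single_of_mem i (Finset.mem_range.2 (by omega))]
    · rw [hb]; simp
    · intro j _ hj
      rw [hb, if_neg hj]; simp
  have hlC : ∀ n i, i ≤ n → |l n i| ≤ C := by
    intro n i hi
    have h1 : ‖A n (x i)‖ ≤ C * ‖x i‖ := (A n).le_of_opNorm_le (hC n) _
    rw [hAx n i hi, norm_smul, RCLike.norm_ofReal] at h1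
    exact le_of_mul_le_mul_right h1 (hx0 i)
  have hl1 : ∀ i, Tendsto (fun n => l n i) atTop (𝓝 1) := by
    intro i
    have h1 : Tendsto (fun n => ‖x i‖⁻¹ * ‖A n (x i) - x i‖) atTop (𝓝 (‖x i‖⁻¹ * 0)) :=
      (tendsto_iff_norm_sub_tendsto_zero.1 (hAl (x i))).const_mul _
    rw [mul_zero] at h1
    rw [tendsto_iff_norm_sub_tendsto_zero]
    refine h1.congr' ?_
    filter_upwards [eventually_ge_atTop i] with n hn
    have h2 : (l n i : 𝕜) • x i - x i = ((l n i - 1 : ℝ) : 𝕜) • x i := by
      push_cast; rw [sub_smul, one_smul]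
    rw [hAx n i hn, h2, norm_smul, RCLike.norm_ofReal, Real.norm_eq_abs]
    field_simp [(hx0 i).ne']
  -- the subsequence
  have hsub : ∀ N : ℕ, ∃ M, N < M ∧ ∑ i ∈ Finset.range (N + 1), |l M i - 1| ≤ 1 := by
    intro N
    have h1 : Tendsto (fun n => ∑ i ∈ Finset.range (N + 1), |l n i - 1|) atTop
        (𝓝 (∑ i ∈ Finset.range (N + 1), |(1 : ℝ) - 1|)) :=
      tendsto_finsetSum _ fun i _ => ((hl1 i).sub_const 1).abs
    simp only [sub_self, abs_zero, Finset.sum_const_zero] at h1
    obtain ⟨M, hM⟩ := ((h1.eventually (gt_mem_nhds one_pos)).and (eventually_gt_atTop N)).exists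
    exact ⟨M, hM.2, hM.1.le⟩
  choose nxt hnxt1 hnxt2 using hsub
  let N : ℕ → ℕ := fun k => nxt^[k] 0
  have hN : ∀ k, N (k + 1) = nxt (N k) := fun k => Function.iterate_succ_apply' _ _ _
  have hNmono : StrictMono N := strictMono_nat_of_lt_succ fun k => by rw [hN]; exact hnxt1 _
  have hNge : ∀ k, k ≤ N k := fun k => hNmono.id_le k
  have hNlt : ∀ k, N k < N (k + 1) := fun k => hNmono (Nat.lt_succ_self k)
  -- block index
  have hex : ∀ i, ∃ k, i ≤ N k := fun i => ⟨i, hNge i⟩
  let B : ℕ → ℕ := fun i => Nat.find (hex i)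
  have hB1 : ∀ i k, B i ≤ k ↔ i ≤ N k := by
    intro i k
    constructor
    · intro h
      exact (Nat.find_spec (hex i)).trans (hNmono.monotone h)
    · intro h
      exact Nat.find_min' (hex i) h
  have hB2 : ∀ i k, B i = k + 1 ↔ N k + 1 ≤ i ∧ i < N (k + 1) + 1 := by
    intro i k
    have h1 := hB1 i k
    have h2 := hB1 i (k + 1)
    omega
  have hB0 : ∀ i, B i = 0 → i = 0 := by
    intro i h
    have := (hB1 i 0).1 h.le
    have h0 : N 0 = 0 := rfl
    omega
  -- the sorting permutations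
  have hτ : ∀ k, ∃ τ : Equiv.Perm ℕ,
      (∀ i, ¬ (N k + 1 ≤ i ∧ i < N (k + 1) + 1) → τ i = i) ∧
      (∀ i, N k + 1 ≤ i → i < N (k + 1) + 1 → N k + 1 ≤ τ i ∧ τ i < N (k + 1) + 1) ∧
      (∀ i j, N k + 1 ≤ i → i ≤ j → j < N (k + 1) + 1 →
        l (N (k + 1)) (τ j) ≤ l (N (k + 1)) (τ i)) := by
    intro k
    obtain ⟨τ, h1, h2, h3⟩ := exists_sort (N (k + 1) - N k) (N k + 1) (l (N (k + 1)))
    have e : N k + 1 + (N (k + 1) - N k) = N (k + 1) + 1 := by
      have := hNlt k
      omega
    rw [e] at h1 h2 h3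
    exact ⟨τ, h1, h2, h3⟩
  choose τ hτ1 hτ2 hτ3 using hτ
  have hτB : ∀ k i, B i = k + 1 → B (τ k i) = k + 1 := by
    intro k i h
    rw [hB2] at h ⊢
    exact hτ2 k i h.1 h.2
  have hτB' : ∀ k i, B i = k + 1 → B ((τ k).symm i) = k + 1 := by
    intro k i h
    by_contra hne
    have h1 : τ k ((τ k).symm i) = (τ k).symm i := by
      apply hτ1
      rw [← hB2]; exact hne
    rw [Equiv.apply_symm_apply] at h1
    rw [← h1] at hne
    exact hne h
  let tt : ℕ → Equiv.Perm ℕ := fun b => Nat.casesOn b 1 (fun k => τ k)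
  have httB : ∀ i, B (tt (B i) i) = B i := by
    intro i
    rcases hbi : B i with _ | k
    · exact hbi
    · exact hτB k i hbi
  have httB' : ∀ i, B ((tt (B i)).symm i) = B i := by
    intro i
    rcases hbi : B i with _ | k
    · exact hbi
    · exact hτB' k i hbi
  let σ : Equiv.Perm ℕ :=
    { toFun := fun i => tt (B i) i
      invFun := fun i => (tt (B i)).symm i
      left_inv := by
        intro i
        change (tt (B (tt (B i) i))).symm (tt (B i) i) = i
        rw [httB, Equiv.symm_apply_apply]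
      right_inv := by
        intro i
        change tt (B ((tt (B i)).symm i)) ((tt (B i)).symm i) = i
        rw [httB', Equiv.apply_symm_apply] }
  have hσ : ∀ i, σ i = tt (B i) i := fun i => rfl
  have hσB : ∀ i, B (σ i) = B i := httB
  have hσN : ∀ i k, σ i ≤ N k ↔ i ≤ N k := by
    intro i k
    rw [← hB1, ← hB1, hσB]
  -- sums over initial blocks are invariant
  have hsum : ∀ {M : Type} [AddCommMonoid M] (k : ℕ) (g : ℕ → M),
      ∑ i ∈ Finset.range (N k + 1), g (σ i) = ∑ i ∈ Finset.range (N k + 1), g i := by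
    intro M _ k g
    apply Finset.sum_equiv σ
    · intro i
      rw [Finset.mem_range, Finset.mem_range, Nat.lt_succ_iff, Nat.lt_succ_iff, hσN]
    · intro i _; rfl
  have hC0 : 0 ≤ C := (norm_nonneg _).trans (hC 0)
  -- the rows
  let lam : ℕ → ℕ → ℝ := fun k i => if i ≤ N k then l (N k) (σ i) else 0
  have hlam1 : ∀ k i, i ≤ N k → lam k i = l (N k) (σ i) := fun k i h => if_pos h
  have hlam0 : ∀ k i, N k < i → lam k i = 0 := fun k i h => if_neg (not_le.2 h)
  have hlamC : ∀ k i, |lam k i| ≤ C := by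
    intro k i
    by_cases h : i ≤ N k
    · rw [hlam1 k i h]
      exact hlC _ _ ((hσN i k).2 h)
    · rw [hlam0 k i (not_le.1 h), abs_zero]; exact hC0
  have hvar : ∀ k n, ∑ m ∈ Finset.range n, |lam k m - lam k (m + 1)| ≤ 5 * C + 2 := by
    intro k
    rcases k with _ | k
    · apply variation (lam 0) 0 0 le_rfl C (hlamC 0) (by simp)
      · intro i j _ hij hj
        obtain rfl : j = 0 := by omega
        obtain rfl : i = 0 := by omega
        exact le_rfl
      · intro i hi
        exact hlam0 0 i hi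
    · apply variation (lam (k + 1)) (N k + 1) (N (k + 1))
        (Nat.succ_le_of_lt (hNmono (Nat.lt_succ_self k))) C (hlamC _)
      · have h1 : ∑ i ∈ Finset.range (N k + 1), |lam (k + 1) i - 1| =
            ∑ i ∈ Finset.range (N k + 1), |l (N (k + 1)) (σ i) - 1| := by
          apply Finset.sum_congr rfl
          intro i hi
          rw [hlam1]
          have h2 := Finset.mem_range.1 hi
          have h3 := hNlt k
          omega
        rw [h1, hsum k (fun i => |l (N (k + 1)) i - 1|), hN]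
        exact hnxt2 (N k)
      · intro i j hi hij hj
        have hBi : B i = k + 1 := (hB2 i k).2 ⟨hi, by omega⟩
        have hBj : B j = k + 1 := (hB2 j k).2 ⟨by omega, by omega⟩
        rw [hlam1 _ _ (hij.trans hj), hlam1 _ _ hj, hσ, hσ, hBi, hBj]
        exact hτ3 k i j hi hij (by omega)
      · exact hlam0 _
  -- the row used at time `n`
  let K : ℕ → ℕ := fun n => Nat.findGreatest (fun k => N k ≤ n) n
  have hK1 : ∀ n, N (K n) ≤ n := by
    intro n
    exact Nat.findGreatest_spec (P := fun k => N k ≤ n) (Nat.zero_le n) (Nat.zero_le n)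
  have hK2 : ∀ k n, N k ≤ n → k ≤ K n := by
    intro k n h
    exact Nat.le_findGreatest ((hNge k).trans h) h
  have hKt : Tendsto K atTop atTop := by
    rw [tendsto_atTop]
    intro k
    filter_upwards [eventually_ge_atTop (N k)] with n hn
    exact hK2 k n hn
  have hNt : Tendsto N atTop atTop := hNmono.tendsto_atTop
  have hlamt : ∀ m, Tendsto (fun k => lam k m) atTop (𝓝 1) := by
    intro m
    have h1 : Tendsto (fun k => l (N k) (σ m)) atTop (𝓝 1) := (hl1 (σ m)).comp hNt
    refine h1.congr' ?_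
    filter_upwards [eventually_ge_atTop m] with k hk
    rw [hlam1 k m (hk.trans (hNge k))]
  refine ⟨fun i => x (σ i), fun i => f (σ i),
    fun n m => ((lam (K n) m - lam (K n) (m + 1) : ℝ) : 𝕜), ?_, ?_, ⟨5 * C + 2, ?_⟩, ?_, ?_, ?_⟩
  · intro i j
    rw [hb]
    by_cases h : i = j
    · rw [if_pos h, if_pos (congrArg σ h)]
    · rw [if_neg h, if_neg (fun e => h (σ.injective e))]
  · intro n m hnm
    have h1 := hK1 n
    change ((lam (K n) m - lam (K n) (m + 1) : ℝ) : 𝕜) = 0
    rw [hlam0 _ _ (by omega), hlam0 _ _ (by omega), sub_zero, RCLike.ofReal_zero]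
  · intro n
    simp only [RCLike.norm_ofReal]
    exact hvar _ _
  · intro m
    have h1 : Tendsto (fun n => lam (K n) m - lam (K n) (m + 1)) atTop (𝓝 (1 - 1)) :=
      ((hlamt m).comp hKt).sub ((hlamt (m + 1)).comp hKt)
    rw [sub_self] at h1
    have h2 := (RCLike.continuous_ofReal (K := 𝕜)).tendsto 0 |>.comp h1
    rw [RCLike.ofReal_zero] at h2
    exact h2
  · have h1 : ∀ n, ∑ m ∈ Finset.range (n + 1),
        ((lam (K n) m - lam (K n) (m + 1) : ℝ) : 𝕜) = ((lam (K n) 0 : ℝ) : 𝕜) := by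
      intro n
      rw [← RCLike.ofReal_sum, Finset.sum_range_sub', hlam0 (K n) (n + 1)
        (Nat.lt_succ_of_le (hK1 n)), sub_zero]
    simp only [h1]
    have h2 := (RCLike.continuous_ofReal (K := 𝕜)).tendsto 1 |>.comp ((hlamt 0).comp hKt)
    rw [RCLike.ofReal_one] at h2
    exact h2
  · intro y
    have h1 : ∀ n, ∑ m ∈ Finset.range (n + 1), ((lam (K n) m - lam (K n) (m + 1) : ℝ) : 𝕜) •
        ∑ i ∈ Finset.range (m + 1), f (σ i) y • x (σ i) = A (N (K n)) y := by
      intro n
      have e1 : ∑ m ∈ Finset.range (n + 1), ((lam (K n) m - lam (K n) (m + 1) : ℝ) : 𝕜) •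
          ∑ i ∈ Finset.range (m + 1), f (σ i) y • x (σ i) =
          ∑ m ∈ Finset.range (n + 1), (((lam (K n) m : ℝ) : 𝕜) - ((lam (K n) (m + 1) : ℝ) : 𝕜)) •
          ∑ i ∈ Finset.range (m + 1), f (σ i) y • x (σ i) := by
        apply Finset.sum_congr rfl
        intro m _
        rw [RCLike.ofReal_sub]
      rw [e1, abel (fun m => ((lam (K n) m : ℝ) : 𝕜)) (fun i => f (σ i) y • x (σ i)) (n + 1)]
      rw [hlam0 (K n) (n + 1) (Nat.lt_succ_of_le (hK1 n)), RCLike.ofReal_zero, zero_smul, sub_zero]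
      have e2 : ∑ i ∈ Finset.range (n + 1), ((lam (K n) i : ℝ) : 𝕜) • f (σ i) y • x (σ i) =
          ∑ i ∈ Finset.range (N (K n) + 1), ((lam (K n) i : ℝ) : 𝕜) • f (σ i) y • x (σ i) := by
        symm
        apply Finset.sum_subset (Finset.range_mono (Nat.succ_le_succ (hK1 n)))
        intro i _ hi
        rw [Finset.mem_range, not_lt] at hi
        rw [hlam0 (K n) i hi, RCLike.ofReal_zero, zero_smul]
      have e3 : ∑ i ∈ Finset.range (N (K n) + 1), ((lam (K n) i : ℝ) : 𝕜) • f (σ i) y • x (σ i) =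
          ∑ i ∈ Finset.range (N (K n) + 1),
            (l (N (K n)) (σ i) : 𝕜) • f (σ i) y • x (σ i) := by
        apply Finset.sum_congr rfl
        intro i hi
        rw [hlam1 _ _ (Nat.lt_succ_iff.1 (Finset.mem_range.1 hi))]
      rw [e2, e3, hsum (K n) (fun i => (l (N (K n)) i : 𝕜) • f i y • x i), hA]
    simp only [h1]
    exact (hAl y).comp (hNt.comp hKt)

/-- **The real case of Q1.** If a Banach space over `𝕜 = ℝ` or `ℂ` has a strongly series summable
M-basis with a real summability matrix, then it has a triangular T-basis. For `𝕜 = ℝ` this is the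
full affirmative answer. -/
theorem result (𝕜 : Type) [RCLike 𝕜] (E : Type) [NormedAddCommGroup E] [NormedSpace 𝕜 E]
    [CompleteSpace E] :
    (∃ (x : ℕ → E) (f : ℕ → E →L[𝕜] 𝕜),
      (∀ i j : ℕ, f i (x j) = if i = j then (1 : 𝕜) else 0) ∧
      Dense ((Submodule.span 𝕜 (Set.range x) : Submodule 𝕜 E) : Set E) ∧
      (∀ y : E, (∀ n : ℕ, f n y = 0) → y = 0) ∧
      ∃ l : ℕ → ℕ → ℝ, ∀ y : E,
        Tendsto (fun n : ℕ => ∑ i ∈ Finset.range (n + 1), (l n i : 𝕜) • f i y • x i) atTop
          (𝓝 y)) →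
    ∃ (x : ℕ → E) (f : ℕ → E →L[𝕜] 𝕜) (t : ℕ → ℕ → 𝕜),
      (∀ i j : ℕ, f i (x j) = if i = j then (1 : 𝕜) else 0) ∧
      (∀ n m : ℕ, n < m → t n m = 0) ∧
      (∃ C : ℝ, ∀ n : ℕ, ∑ m ∈ Finset.range (n + 1), ‖t n m‖ ≤ C) ∧
      (∀ m : ℕ, Tendsto (fun n : ℕ => t n m) atTop (𝓝 0)) ∧
      Tendsto (fun n : ℕ => ∑ m ∈ Finset.range (n + 1), t n m) atTop (𝓝 1) ∧
      ∀ y : E, Tendsto (fun n : ℕ => ∑ m ∈ Finset.range (n + 1),
          t n m • ∑ i ∈ Finset.range (m + 1), f i y • x i) atTop (𝓝 y) := by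
  rintro ⟨x, f, hb, -, -, l, hl⟩
  exact main 𝕜 E x f hb l hl

end Pool.Agent.Results.MP_843e59_an.RealTBasis
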